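import Pool.Agent.V11307.QSignThm

set_option autoImplicit false

/-!
# The exponent `r (m - r) (1 - p²) / (2m)` when `p ≡ ±1 (mod m)`

Notation: `RatFunc ℚ` is `ℚ(q)`; the two sides of the congruence are polynomials in `x` over it.
-/

namespace Pool.Agent.Results.MP_594717_nt.Exponent

open Polynomial Finset V11307.QSign

noncomputable section

/-- `[p] = 1 + q + ⋯ + q^{p-1}`, as an element of `ℚ[q][x]`. -/
def qNum (p : ℕ) : ℚ[X][X] := C (∑ i ∈ range p, X ^ i)

/-- The inclusion `ℚ[q][x] ⊆ ℚ(q)[x]`. -/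
def incl (N : ℚ[X][X]) : (RatFunc ℚ)[X] := N.map (algebraMap ℚ[X] (RatFunc ℚ))

/-- `A ≡ B (mod [p]²)` for `A, B ∈ ℚ(q)[x]`: `A - B = [p]² N / D` with `N, D ∈ ℚ[q][x]` and `D`
coprime to `[p]` (no common factor), i.e. `(A - B) D = [p]² N`. -/
def Cong (p : ℕ) (A B : (RatFunc ℚ)[X]) : Prop :=
  ∃ N D : ℚ[X][X], IsRelPrime D (qNum p) ∧ (A - B) * incl D = incl (qNum p ^ 2 * N)

/-- The congruence `(*)` with exponent `f`. -/
def Star (p m r : ℕ) (f : ℤ) : Prop :=
  Cong p (S p m r) (C ((-1) ^ residue p m r * q ^ f) * T p m r)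

theorem qNum_eq {p : ℕ} (hp : p.Prime) : qNum p = C (cyclotomic p ℚ) := by
  rw [← qInt_eq hp]; rfl

theorem prime_qNum {p : ℕ} (hp : p.Prime) : Prime (qNum p) := by
  rw [qNum_eq hp, Polynomial.prime_C_iff]
  exact (V11307.Q.cyc_irr hp.pos).prime

theorem relPrime_iff {p : ℕ} (hp : p.Prime) (D : ℚ[X][X]) : IsRelPrime D (qNum p) ↔ ¬ qNum p ∣ D := by
  rw [isRelPrime_comm]
  exact (prime_qNum hp).irreducible.isRelPrime_iff_not_dvd

/-- coefficients in the local ring: common denominator -/
theorem common_denom {p : ℕ} (hp : p.Prime) (k : ℕ) (f : (RatFunc ℚ)[X])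
    (hf : ∀ i, V11307.Q.I p k (f.coeff i)) :
    ∃ (N : ℚ[X][X]) (b : ℚ[X]), ¬ cyclotomic p ℚ ∣ b ∧ f * incl (C b) = incl (qNum p ^ k * N) := by
  have key : ∀ n : ℕ, ∃ (N : ℚ[X][X]) (b : ℚ[X]), ¬ cyclotomic p ℚ ∣ b ∧
      (∑ i ∈ range n, C (f.coeff i) * X ^ i) * incl (C b) = incl (qNum p ^ k * N) := by
    intro n
    induction n with
    | zero =>
      exact ⟨0, 1, fun h => (V11307.Q.cyc_irr hp.pos).not_isUnit (isUnit_of_dvd_one h), by simp [incl]⟩
    | succ n ih =>
      obtain ⟨N, b, hb, h⟩ := ih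
      obtain ⟨y, ⟨a, d, hd, hd0, hy⟩, hx⟩ := hf n
      have hd' : ¬ cyclotomic p ℚ ∣ d := by
        intro hdd
        exact (V11307.Q.cyc_irr hp.pos).not_isUnit (hd.isUnit_of_dvd' hdd dvd_rfl)
      refine ⟨N * C d + C (a * b) * X ^ n, b * d, ?_, ?_⟩
      · intro hbd
        rcases (V11307.Q.cyc_irr hp.pos).prime.dvd_or_dvd hbd with h1 | h1
        · exact hb h1
        · exact hd' h1
      · rw [sum_range_succ, add_mul]
        have e1 : incl (C (b * d)) = incl (C b) * C (V11307.Q.φ d) := by
          simp [incl, Polynomial.map_C]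
        have e2 : (∑ i ∈ range n, C (f.coeff i) * X ^ i) * incl (C (b * d)) =
            incl (qNum p ^ k * (N * C d)) := by
          rw [e1, ← mul_assoc, h]
          simp [incl, Polynomial.map_mul, mul_assoc]
        have e3 : C (f.coeff n) * X ^ n * incl (C (b * d)) =
            incl (qNum p ^ k * (C (a * b) * X ^ n)) := by
          rw [qNum_eq hp]
          simp only [incl, Polynomial.map_mul, Polynomial.map_pow, Polynomial.map_C, map_X]
          have : f.coeff n * V11307.Q.φ (b * d) =
              V11307.Q.φ (cyclotomic p ℚ) ^ k * V11307.Q.φ (a * b) := by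
            rw [hx, map_mul, map_mul, ← hy]; ring
          have h4 := congrArg (C : RatFunc ℚ → (RatFunc ℚ)[X]) this
          rw [C_mul, C_mul, C_pow] at h4
          linear_combination X ^ n * h4
        rw [e2, e3]
        simp only [incl, Polynomial.map_add, Polynomial.map_mul, mul_add]
  obtain ⟨N, b, hb, h⟩ := key (f.natDegree + 1)
  refine ⟨N, b, hb, ?_⟩
  rw [← h]
  congr 1
  exact f.as_sum_range_C_mul_X_pow

theorem incl_inj : Function.Injective incl :=
  Polynomial.map_injective _ (RatFunc.algebraMap_injective ℚ)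

theorem incl_mul (a b : ℚ[X][X]) : incl (a * b) = incl a * incl b := Polynomial.map_mul _

set_option maxHeartbeats 1000000 in
/-- the unique solution -/
theorem star_iff {p m r : ℕ} (hp : p.Prime) (hp2 : p ≠ 2) (hm : 0 < m) (hpm : ¬ p ∣ m) (f : ℤ) :
    Star p m r f ↔ f = expo p m r := by
  constructor
  · rintro ⟨N, D, hD, h⟩
    rw [relPrime_iff hp] at hD
    by_contra hne
    -- the difference with the true congruence
    set u : RatFunc ℚ := (-1) ^ residue p m r * V11307.Q.q ^ (expo p m r) with hu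
    set δ : RatFunc ℚ := 1 - V11307.Q.q ^ (f - expo p m r) with hδ
    obtain ⟨N', b, hb, h'⟩ := common_denom hp 2 _ (main_cong (r := r) hp hp2 hm hpm)
    have hsub : (S p m r - C ((-1) ^ residue p m r * q ^ f) * T p m r) -
        (S p m r - C u * T p m r) = C (u * δ) * T p m r := by
      have : (-1) ^ residue p m r * q ^ f = u * V11307.Q.q ^ (f - expo p m r) := by
        have h0 : q ^ f = V11307.Q.q ^ (expo p m r) * V11307.Q.q ^ (f - expo p m r) := by
          rw [← zpow_add₀ V11307.Q.q_ne, add_sub_cancel, q_eq]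
        rw [h0, hu, mul_assoc]
      have h1 : C (u * δ) = C u - C (u * V11307.Q.q ^ (f - expo p m r)) := by
        rw [← C_sub, hδ, mul_sub, mul_one]
      rw [this, h1]; ring
    -- hence `C δ * T * D'' = [p]² N''`
    have e1 : C (u * δ) * T p m r * incl (D * C b) = incl (qNum p ^ 2 * (N * C b - N' * D)) := by
      rw [← hsub, incl_mul, sub_mul]
      have e2 : (S p m r - C ((-1) ^ residue p m r * q ^ f) * T p m r) * (incl D * incl (C b)) =
          incl (qNum p ^ 2 * N) * incl (C b) := by rw [← mul_assoc, h]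
      have e3 : (S p m r - C u * T p m r) * (incl D * incl (C b)) =
          incl (qNum p ^ 2 * N') * incl D := by
        rw [mul_comm (incl D), ← mul_assoc, h']
      rw [e2, e3, ← incl_mul, ← incl_mul]
      rw [incl, incl, incl, ← Polynomial.map_sub]
      exact congrArg incl (by ring)
    -- `T` has coefficients in the local ring and unit constant term
    have hTmem : ∀ i, V11307.Q.I p 0 ((T p m r).coeff i) := by
      intro i
      rw [V11307.Q.I_zero_iff, T_eq]
      rcases lt_or_ge i p with hi | hi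
      · have := V11307.Q.TT_cong hp hm hpm r hi
        have h2 := this.mem
        have h3 := add_mem h2 (mul_mem (V11307.Q.FF_mem hp hpm r) (V11307.Q.cc_mem hp hpm r hi))
        rwa [sub_add_cancel] at h3
      · rw [V11307.Q.TT_coeff_ge _ _ hi]; exact zero_mem _
    obtain ⟨NT, c, hc, hT⟩ := common_denom hp 0 _ hTmem
    rw [pow_zero, one_mul] at hT
    have hNT : ¬ qNum p ∣ NT := by
      rintro ⟨M, rfl⟩
      have h0 := congrArg (fun P => Polynomial.coeff P 0) hT
      simp only [incl, qNum_eq hp, Polynomial.map_mul, Polynomial.map_C, coeff_mul_C, coeff_C_mul] at h0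
      -- T_0 * φ c = φ Φ * φ M_0
      have hI : V11307.Q.I p 1 ((T p m r).coeff 0) := by
        refine ⟨V11307.Q.φ (M.coeff 0) * (V11307.Q.φ c)⁻¹,
          mul_mem (V11307.Q.φ_mem _) (V11307.Q.inv_mem hp.pos hc), ?_⟩
        have hc0 : V11307.Q.φ c ≠ 0 := V11307.Q.φ_ne (by rintro rfl; exact hc (dvd_zero _))
        rw [← mul_assoc, ← div_eq_mul_inv, eq_div_iff hc0, h0, coeff_map, pow_one]
      rw [T_eq, V11307.Q.TT_coeff_zero] at hI
      obtain ⟨a1, a2⟩ := residue_spec (r := r) hp hpm
      have h3 := (V11307.Q.FF_eval hp hp2 hm hpm _ r a1 a2).mono (l := 1) (by norm_num)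
      have hu' : ((-1) ^ residue p m r * V11307.Q.q ^ (V11307.Q.ex p m r (residue p m r)))
          ∈ V11307.Q.R p :=
        mul_mem (pow_mem (neg_mem (one_mem _)) _) (V11307.Q.zpow_mem' hp.pos _)
      have h4 := (hI.mul_R hu').sub h3
      rw [sub_sub_cancel] at h4
      exact one_not_I hp.pos h4
    -- write `u δ = g / d` with integral `g`, `d` prime to `Φ`
    have hmem : u * δ ∈ V11307.Q.R p :=
      mul_mem (mul_mem (pow_mem (neg_mem (one_mem _)) _) (V11307.Q.zpow_mem' hp.pos _))
        (sub_mem (one_mem _) (V11307.Q.zpow_mem' hp.pos _))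
    obtain ⟨g, d, hd, hd0, hg⟩ := hmem
    have e4 : C g * NT * (D * C b) = qNum p ^ 2 * ((N * C b - N' * D) * C c * C d) := by
      apply incl_inj
      have e5 : incl (C g) = C (u * δ) * incl (C d) := by
        simp only [incl, Polynomial.map_C]
        rw [← C_mul]; congr 1; exact hg.symm
      have e6 : incl (qNum p ^ 2 * ((N * C b - N' * D) * C c * C d)) =
          incl (qNum p ^ 2 * (N * C b - N' * D)) * incl (C c) * incl (C d) := by
        rw [← incl_mul, ← incl_mul]
        exact congrArg incl (by ring)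
      rw [e6, ← e1, incl_mul, incl_mul (C g), e5, ← hT]
      generalize incl (D * C b) = z1
      generalize incl (C c) = z2
      generalize incl (C d) = z3
      generalize C (u * δ) = z4
      generalize T p m r = z5
      ring
    have hP := prime_qNum hp
    have h6 : qNum p ^ 2 ∣ (C g) * (NT * (D * C b)) := ⟨_, by rw [← e4]; ring⟩
    have h7 : ¬ qNum p ∣ NT * (D * C b) := by
      intro h8
      rcases hP.dvd_or_dvd h8 with h9 | h9
      · exact hNT h9
      · rcases hP.dvd_or_dvd h9 with h10 | h10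
        · exact hD h10
        · rw [qNum_eq hp] at h10
          apply hb
          have := (Polynomial.C_dvd_iff_dvd_coeff _ _).1 h10 0
          simpa using this
    have h8 : qNum p ^ 2 ∣ C g := hP.pow_dvd_of_dvd_mul_right 2 h7 h6
    rw [qNum_eq hp, ← C_pow] at h8
    have h9 : cyclotomic p ℚ ^ 2 ∣ g := by
      have := (Polynomial.C_dvd_iff_dvd_coeff _ _).1 h8 0
      simpa using this
    obtain ⟨g', rfl⟩ := h9
    -- so `1 - q^(f - f₀)` is in `I 2`
    have h10 : V11307.Q.I p 2 (u * δ) := by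
      have hdd : ¬ cyclotomic p ℚ ∣ d := by
        intro hdd
        exact (V11307.Q.cyc_irr hp.pos).not_isUnit (hd.isUnit_of_dvd' hdd dvd_rfl)
      refine ⟨V11307.Q.φ g' * (V11307.Q.φ d)⁻¹,
          mul_mem (V11307.Q.φ_mem _) (V11307.Q.inv_mem hp.pos hdd), ?_⟩
      rw [← mul_assoc, ← div_eq_mul_inv, eq_div_iff (V11307.Q.φ_ne hd0), hg, map_mul, map_pow]
    have h11 : V11307.Q.I p 2 δ := by
      have hu2 : V11307.Q.q ^ (-(expo p m r)) * (-1) ^ residue p m r ∈ V11307.Q.R p :=
        mul_mem (V11307.Q.zpow_mem' hp.pos _) (pow_mem (neg_mem (one_mem _)) _)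
      have := h10.mul_R hu2
      convert this using 1
      have e6 : V11307.Q.q ^ (expo p m r) * V11307.Q.q ^ (-(expo p m r)) = 1 := by
        rw [← zpow_add₀ V11307.Q.q_ne, add_neg_cancel, zpow_zero]
      have e7 : ((-1 : RatFunc ℚ) ^ residue p m r) * (-1) ^ residue p m r = 1 := by
        rw [← mul_pow]; simp
      rw [hu]
      linear_combination (-δ * (-1) ^ residue p m r * (-1) ^ residue p m r) * e6 - δ * e7
    have := zpow_eq_one_of_cong hp.pos h11
    omega
  · rintro rfl
    obtain ⟨N, b, hb, h⟩ := common_denom hp 2 _ (main_cong (r := r) hp hp2 hm hpm)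
    refine ⟨N, C b, ?_, h⟩
    rw [relPrime_iff hp, qNum_eq hp]
    intro h10
    apply hb
    have := (Polynomial.C_dvd_iff_dvd_coeff _ _).1 h10 0
    simpa using this

/-- If `p` is an odd prime, `1 ≤ r < m` and `p ≡ ±1 (mod m)`, then `(*)` holds for exactly one
integer `f`, namely for `f = r (m - r) (1 - p²) / (2m)` (which is an integer). -/
theorem result (p m r : ℕ) (hp : p.Prime) (hp2 : p ≠ 2) (hm : 0 < m) (hr : 0 < r) (hrm : r < m)
    (hpm : (p : ℤ) ≡ 1 [ZMOD m] ∨ (p : ℤ) ≡ -1 [ZMOD m]) :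
    ∃ f : ℤ, 2 * m * f = r * (m - r) * (1 - p ^ 2) ∧ ∀ f' : ℤ, Star p m r f' ↔ f' = f := by
  have hnd : ¬ p ∣ m := by
    rintro ⟨c, rfl⟩
    rcases hpm with h | h
    · have h1 : ((p * c : ℕ) : ℤ) ∣ p - 1 := (Int.modEq_iff_dvd.1 h.symm)
      have h2 : (p : ℤ) ∣ p - 1 := (dvd_trans (by push_cast; exact dvd_mul_right _ _) h1)
      have h3 : (p : ℤ) ∣ 1 := by simpa using dvd_sub (dvd_refl (p : ℤ)) h2
      have := Int.le_of_dvd one_pos h3
      have := hp.two_le
      omega
    · have h1 : ((p * c : ℕ) : ℤ) ∣ p - (-1) := (Int.modEq_iff_dvd.1 h.symm)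
      have h2 : (p : ℤ) ∣ p - (-1) := (dvd_trans (by push_cast; exact dvd_mul_right _ _) h1)
      have h3 : (p : ℤ) ∣ 1 := by simpa using dvd_sub h2 (dvd_refl (p : ℤ))
      have := Int.le_of_dvd one_pos h3
      have := hp.two_le
      omega
  refine ⟨expo p m r, ?_, star_iff hp hp2 hm hnd⟩
  obtain ⟨t, ht⟩ := hp.odd_of_ne_two hp2
  have hmul : ∀ a : ℕ, (2 : ℤ) * ((a * (a - 1) / 2 : ℕ) : ℤ) = a * (a - 1) := by
    intro a
    have h3 : 2 * (a * (a - 1) / 2) = a * (a - 1) := by
      rcases a with _ | a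
      · simp
      · have : Even ((a + 1) * a) := by
          rw [mul_comm]; exact Nat.even_mul_succ_self a
        simp only [Nat.add_sub_cancel]
        exact Nat.two_mul_div_two_of_even this
    rcases a with _ | a
    · simp
    · have h4 := congrArg (fun n : ℕ => (n : ℤ)) h3
      simp only [Nat.cast_mul, Nat.add_sub_cancel] at h4
      push_cast at h4 ⊢
      linear_combination h4
  have hex : ∀ a : ℕ, 2 * V11307.Q.ex p m r a = 2 * a * r + m * (a * (a - 1)) -
      (r + a * m) * (p - 1) := by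
    intro a
    unfold V11307.Q.ex
    have h5 : (2 : ℤ) * ((((r + a * m) * ((p - 1) / 2) : ℕ)) : ℤ) = (r + a * m) * (p - 1) := by
      rw [show (p - 1) / 2 = t by omega, ht]
      push_cast
      ring
    linear_combination (m : ℤ) * hmul a - h5
  rw [expo]
  rcases hpm with h | h
  · -- p = m u + 1, a = r u
    obtain ⟨u, hu⟩ := (Int.modEq_iff_dvd.1 h.symm)
    have hu0 : 0 ≤ u := by
      have h1 : 0 ≤ (m : ℤ) * u := by
        rw [← hu]
        have := hp.one_lt
        omega
      exact nonneg_of_mul_nonneg_right h1 (by exact_mod_cast hm)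
    obtain ⟨u, rfl⟩ := Int.eq_ofNat_of_zero_le hu0
    have hpu : p = m * u + 1 := by
      have h1 : (p : ℤ) = m * u + 1 := by linarith
      exact_mod_cast h1
    have ha : residue p m r = r * u := by
      apply residue_unique hp hnd
      · rw [hpu]
        have : r * u ≤ m * u := Nat.mul_le_mul_right _ hrm.le
        omega
      · rw [hpu]; exact ⟨r, by ring⟩
    rw [ha]
    have h1 := hex (r * u)
    have hpz : (p : ℤ) = m * u + 1 := by exact_mod_cast hpu
    rw [hpz] at h1 ⊢
    push_cast at h1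
    linear_combination (m : ℤ) * h1
  · -- p = m u - 1, a = p - r u
    obtain ⟨u, hu⟩ := (Int.modEq_iff_dvd.1 h.symm)
    have hu0 : 0 < u := by
      have h1 : 0 < (m : ℤ) * u := by
        rw [← hu]
        have := hp.one_lt
        omega
      exact (pos_iff_pos_of_mul_pos h1).1 (by exact_mod_cast hm)
    obtain ⟨u, rfl⟩ := Int.eq_ofNat_of_zero_le hu0.le
    have hpu : p + 1 = m * u := by
      have h1 : (p : ℤ) + 1 = m * u := by linarith
      exact_mod_cast h1
    have hu1 : 0 < u := by exact_mod_cast hu0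
    have hru : r * u ≤ p := by
      have h1 : (r + 1) * u ≤ m * u := Nat.mul_le_mul_right _ hrm
      have h2 : (r + 1) * u = r * u + u := by ring
      omega
    have hru0 : 0 < r * u := Nat.mul_pos hr hu1
    have ha : residue p m r = p - r * u := by
      apply residue_unique hp hnd
      · omega
      · refine ⟨m - r, ?_⟩
        zify [hru, hrm.le]
        have hpz : (p : ℤ) + 1 = m * u := by exact_mod_cast hpu
        linear_combination (r : ℤ) * hpz
    rw [ha]
    have h1 := hex (p - r * u)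
    rw [Nat.cast_sub hru] at h1
    push_cast at h1
    have hpz : (p : ℤ) = m * u - 1 := by
      have : (p : ℤ) + 1 = m * u := by exact_mod_cast hpu
      linarith
    rw [hpz] at h1 ⊢
    linear_combination (m : ℤ) * h1

end

end Pool.Agent.Results.MP_594717_nt.Exponent
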